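import Mathlib

set_option autoImplicit false

namespace Pool.Agent.Results.MP_9fddba_co.Disproof

open Finset

/-- The vector space of dimension five over the field with two elements. -/
abbrev V := Fin 5 → ZMod 2

def sg (a : ZMod 2) : ZMod 3 := if a = 0 then 1 else -1

lemma sg_add : ∀ a b : ZMod 2, sg (a + b) = sg a * sg b := by decide

lemma sg_zero : sg 0 = 1 := by decide

lemma sg_sum {ι : Type*} (s : Finset ι) (f : ι → ZMod 2) :
    sg (∑ i ∈ s, f i) = ∏ i ∈ s, sg (f i) := by
  classical
  induction s using Finset.induction_on with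
  | empty => simp [sg_zero]
  | insert a s ha ih => rw [Finset.sum_insert ha, Finset.prod_insert ha, sg_add, ih]

def dot (u x : V) : ZMod 2 := ∑ i, u i * x i

def chi (u x : V) : ZMod 3 := sg (dot u x)

lemma dot_add_left (u v x : V) : dot (u + v) x = dot u x + dot v x := by
  simp [dot, add_mul, Finset.sum_add_distrib]

lemma chi_add_left (u v x : V) : chi (u + v) x = chi u x * chi v x := by
  simp [chi, dot_add_left, sg_add]

lemma chi_zero_left (x : V) : chi 0 x = 1 := by
  simp [chi, dot, sg_zero]

lemma chi_zero_right (u : V) : chi u 0 = 1 := by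
  simp [chi, dot, sg_zero]

lemma sum_chi (u : V) : ∑ x, chi u x = if u = 0 then -1 else 0 := by
  have h1 : ∀ x : V, chi u x = ∏ i, sg (u i * x i) := by
    intro x
    simp [chi, dot, sg_sum]
  simp_rw [h1]
  have h2 := Finset.prod_univ_sum (fun _ : Fin 5 => (Finset.univ : Finset (ZMod 2)))
    (fun i a => sg (u i * a))
  rw [Fintype.piFinset_univ] at h2
  rw [← h2]
  have h3 : ∀ c : ZMod 2, ∑ a : ZMod 2, sg (c * a) = if c = 0 then 2 else 0 := by decide
  simp_rw [h3]
  by_cases hu : u = 0
  · subst hu
    simp
    decide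
  · rw [if_neg hu]
    obtain ⟨i, hi⟩ := Function.ne_iff.mp hu
    exact Finset.prod_eq_zero (Finset.mem_univ i) (if_neg hi)

lemma add_self (u : V) : u + u = 0 := by
  have : ∀ a : ZMod 2, a + a = 0 := by decide
  funext i
  exact this (u i)

lemma add_eq_zero_iff' (u a : V) : u + a = 0 ↔ a = u := by
  constructor
  · intro h
    have : u + (u + a) = u := by rw [h, add_zero]
    rw [← add_assoc, add_self, zero_add] at this
    exact this
  · rintro rfl
    exact add_self _

/-- Main counting lemma over the field with three elements. -/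
lemma key (W : V → ZMod 3) (hW0 : W 0 = 0)
    (hne : ∀ x : V, x ≠ 0 → ∑ u, W u * (chi u x - 1) ≠ 0) :
    10 ≤ (univ.filter (fun u => W u ≠ 0)).card := by
  set w : ZMod 3 := ∑ u, W u with hw
  set S : V → ZMod 3 := fun x => ∑ u, W u * chi u x with hS
  have hf : ∀ x : V, ∑ u, W u * (chi u x - 1) = S x - w := by
    intro x
    simp only [mul_sub, mul_one, Finset.sum_sub_distrib, hS, hw]
  have sq1 : ∀ a : ZMod 3, a ≠ 0 → a ^ 2 = 1 := by decide
  have hsq : ∀ x : V, (S x - w) ^ 2 = 1 - if x = 0 then 1 else 0 := by
    intro x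
    by_cases hx : x = 0
    · subst hx
      have : S 0 - w = 0 := by
        rw [← hf 0]
        simp [chi_zero_right]
      rw [this]
      simp
    · rw [if_neg hx, sub_zero]
      apply sq1
      rw [← hf x]
      exact hne x hx
  -- the two linear identities
  have hone : ∀ u : V, ∑ x, chi u x * S x = - W u := by
    intro u
    have : ∀ x, chi u x * S x = ∑ a, W a * chi (u + a) x := by
      intro x
      simp only [hS, Finset.mul_sum, chi_add_left]
      apply Finset.sum_congr rfl
      intro a _
      ring
    simp_rw [this]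
    rw [Finset.sum_comm]
    simp_rw [← Finset.mul_sum, sum_chi, add_eq_zero_iff']
    simp
  have htwo : ∀ u : V, ∑ x, chi u x * (S x) ^ 2 = - ∑ a, W a * W (u + a) := by
    intro u
    have : ∀ x, chi u x * (S x) ^ 2 = ∑ a, ∑ b, (W a * W b) * chi (u + a + b) x := by
      intro x
      have h1 : (S x) ^ 2 = ∑ a, ∑ b, (W a * chi a x) * (W b * chi b x) := by
        rw [sq, hS]
        simp only
        rw [Finset.sum_mul_sum]
      rw [h1, Finset.mul_sum]
      apply Finset.sum_congr rfl
      intro a _
      rw [Finset.mul_sum]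
      apply Finset.sum_congr rfl
      intro b _
      rw [chi_add_left, chi_add_left]
      ring
    simp_rw [this]
    rw [Finset.sum_comm]
    rw [← Finset.sum_neg_distrib]
    apply Finset.sum_congr rfl
    intro a _
    rw [Finset.sum_comm]
    simp_rw [← Finset.mul_sum, sum_chi, add_eq_zero_iff']
    simp
  have hmain : ∀ u : V, (∑ a, W a * W (u + a)) + w * W u + w ^ 2 * (if u = 0 then 1 else 0)
      = (if u = 0 then 1 else 0) + 1 := by
    intro u
    have h1 : ∑ x, chi u x * (S x - w) ^ 2 = ∑ x, chi u x * (1 - if x = 0 then 1 else 0) := by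
      apply Finset.sum_congr rfl
      intro x _
      rw [hsq x]
    have h2 : ∑ x, chi u x * (1 - if x = 0 then 1 else 0)
        = (if u = 0 then -1 else 0) - 1 := by
      simp only [mul_sub, mul_one, Finset.sum_sub_distrib, sum_chi]
      simp [chi_zero_right]
    have h3 : ∑ x, chi u x * (S x - w) ^ 2
        = ∑ x, chi u x * (S x) ^ 2 - 2 * w * ∑ x, chi u x * S x + w ^ 2 * ∑ x, chi u x := by
      have h4 : ∀ x : V, chi u x * (S x - w) ^ 2
          = chi u x * (S x) ^ 2 - 2 * w * (chi u x * S x) + w ^ 2 * chi u x := by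
        intro x
        ring
      rw [Finset.sum_congr rfl (fun x _ => h4 x), Finset.sum_add_distrib,
        Finset.sum_sub_distrib, ← Finset.mul_sum, ← Finset.mul_sum]
    rw [h3, h2, hone, htwo, sum_chi] at h1
    generalize (∑ a, W a * W (u + a)) = F at h1 ⊢
    generalize W u = c at h1 ⊢
    by_cases hu : u = 0
    · simp only [hu, if_true] at h1 ⊢
      clear * - h1
      revert h1
      generalize w = d
      revert F c d
      decide
    · simp only [hu, if_false] at h1 ⊢
      clear * - h1
      revert h1
      generalize w = d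
      revert F c d
      decide
  set P : Finset V := univ.filter (fun u => W u ≠ 0) with hP
  -- the value at zero
  have hcard : ((P.card : ℕ) : ZMod 3) + w ^ 2 = 2 := by
    have h0 := hmain 0
    simp only [zero_add, hW0, mul_zero, add_zero, if_true, mul_one] at h0
    have h1 : ∑ a, W a * W a = ((P.card : ℕ) : ZMod 3) := by
      rw [Finset.card_filter, Nat.cast_sum]
      apply Finset.sum_congr rfl
      intro a _
      by_cases ha : W a = 0
      · simp [ha]
      · rw [if_pos ha, ← sq, sq1 _ ha]
        simp
    rw [h1] at h0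
    rw [h0]
    decide
  -- covering
  have hcov : ∀ u : V, u ≠ 0 → (∑ a, W a * W (u + a)) ≠ 0 →
      u ∈ (Finset.powersetCard 2 P).image (fun s => ∑ a ∈ s, a) := by
    intro u hu hsum
    obtain ⟨a, _, ha⟩ := Finset.exists_ne_zero_of_sum_ne_zero hsum
    have ha1 : W a ≠ 0 := left_ne_zero_of_mul ha
    have ha2 : W (u + a) ≠ 0 := right_ne_zero_of_mul ha
    have hne : a ≠ u + a := by
      intro h
      apply hu
      have : a + a = u + a + a := by rw [← h]
      rw [add_assoc, add_self, add_zero] at this
      exact this.symm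
    rw [Finset.mem_image]
    refine ⟨{a, u + a}, ?_, ?_⟩
    · rw [Finset.mem_powersetCard]
      refine ⟨?_, Finset.card_pair hne⟩
      intro b hb
      simp only [Finset.mem_insert, Finset.mem_singleton] at hb
      rcases hb with rfl | rfl
      · simp [hP, ha1]
      · simp [hP, ha2]
    · rw [Finset.sum_pair hne]
      rw [add_comm u a, ← add_assoc, add_self, zero_add]
  have hVcard : ((univ : Finset V).erase 0).card = 31 := by
    rw [Finset.card_erase_of_mem (Finset.mem_univ _), Finset.card_univ]
    simp
  have himg : ((Finset.powersetCard 2 P).image (fun s => ∑ a ∈ s, a)).card ≤ P.card.choose 2 := by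
    refine le_trans Finset.card_image_le ?_
    rw [Finset.card_powersetCard]
  by_contra hlt
  push Not at hlt
  by_cases hw0 : w = 0
  · -- every nonzero vector is a sum of two distinct members of P
    have hsub : (univ : Finset V).erase 0 ⊆
        (Finset.powersetCard 2 P).image (fun s => ∑ a ∈ s, a) := by
      intro u hu
      have hu0 : u ≠ 0 := (Finset.mem_erase.mp hu).1
      apply hcov u hu0
      have := hmain u
      rw [hw0] at this
      simp only [zero_mul, add_zero, hu0, if_false] at this
      intro h
      rw [h] at this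
      revert this
      decide
    have hc := Finset.card_le_card hsub
    rw [hVcard] at hc
    have hc2 := hc.trans himg
    rw [hw0] at hcard
    generalize P.card = p at hcard hc2 hlt
    have h1 : ∀ p < 10, ((p : ℕ) : ZMod 3) + 0 ^ 2 = 2 → ¬ (31 ≤ p.choose 2) := by decide
    exact h1 p hlt hcard hc2
  · have hsub : (univ : Finset V).erase 0 ⊆
        P ∪ (Finset.powersetCard 2 P).image (fun s => ∑ a ∈ s, a) := by
      intro u hu
      have hu0 : u ≠ 0 := (Finset.mem_erase.mp hu).1
      rw [Finset.mem_union]
      by_cases hWu : W u = 0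
      · right
        apply hcov u hu0
        have := hmain u
        rw [hWu] at this
        simp only [mul_zero, add_zero, hu0, if_false] at this
        intro h
        rw [h] at this
        revert this
        decide
      · left
        simp [hP, hWu]
    have hc := Finset.card_le_card hsub
    rw [hVcard] at hc
    have hc2 := hc.trans ((Finset.card_union_le _ _).trans (Nat.add_le_add_left himg _))
    rw [sq1 _ hw0] at hcard
    generalize P.card = p at hcard hc2 hlt
    have h1 : ∀ p < 10, ((p : ℕ) : ZMod 3) + 1 = 2 → ¬ (31 ≤ p + p.choose 2) := by decide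
    exact h1 p hlt hcard hc2

/-- Nine elements of the group C_2^4 + C_3 always have a nonempty zero-sum subfamily. -/
lemma exists_zero_sum (v : Fin 9 → (Fin 4 → ZMod 2)) (w : Fin 9 → ZMod 3) :
    ∃ I : Finset (Fin 9), I.Nonempty ∧ ∑ i ∈ I, v i = 0 ∧ ∑ i ∈ I, w i = 0 := by
  classical
  by_contra hcon
  push Not at hcon
  let L : (Fin 9 → ZMod 2) →ₗ[ZMod 2] (Fin 4 → ZMod 2) := Fintype.linearCombination (ZMod 2) v
  have hrk := LinearMap.finrank_range_add_finrank_ker L
  have hr : Module.finrank (ZMod 2) (LinearMap.range L) ≤ 4 := by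
    refine (Submodule.finrank_le _).trans ?_
    simp
  have hk : 5 ≤ Module.finrank (ZMod 2) (LinearMap.ker L) := by
    have : Module.finrank (ZMod 2) (Fin 9 → ZMod 2) = 9 := by simp
    omega
  let B := Module.finBasis (ZMod 2) (LinearMap.ker L)
  let b : Fin 5 → (Fin 9 → ZMod 2) := fun k => (B (Fin.castLE hk k) : Fin 9 → ZMod 2)
  have hbker : ∀ k, L (b k) = 0 := fun k => (B (Fin.castLE hk k)).2
  have hbli : LinearIndependent (ZMod 2) b := by
    have h1 : LinearIndependent (ZMod 2) (fun k : Fin 5 => B (Fin.castLE hk k)) :=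
      B.linearIndependent.comp _ (Fin.castLE_injective hk)
    exact h1.map' (LinearMap.ker L).subtype (Submodule.ker_subtype _)
  let y : V → (Fin 9 → ZMod 2) := fun x => ∑ k, x k • b k
  have hyker : ∀ x, L (y x) = 0 := by
    intro x
    simp only [y, map_sum, map_smul, hbker, smul_zero, Finset.sum_const_zero]
  have hyne : ∀ x, x ≠ 0 → y x ≠ 0 := by
    intro x hx h0
    apply hx
    funext k
    exact Fintype.linearIndependent_iff.mp hbli x h0 k
  let c : Fin 9 → V := fun i k => b k i
  have hyc : ∀ x i, y x i = dot (c i) x := by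
    intro x i
    simp only [y, c, dot, Finset.sum_apply, Pi.smul_apply, smul_eq_mul]
    exact Finset.sum_congr rfl (fun k _ => mul_comm _ _)
  have hone : ∀ a : ZMod 2, a ≠ 0 → a = 1 := by decide
  have hne9 : ∀ x : V, x ≠ 0 → ∑ i, w i * (chi (c i) x - 1) ≠ 0 := by
    intro x hx
    have hI : (univ.filter (fun i => y x i ≠ 0)).Nonempty := by
      obtain ⟨i, hi⟩ := Function.ne_iff.mp (hyne x hx)
      exact ⟨i, by simpa using hi⟩
    have hv : ∑ i ∈ univ.filter (fun i => y x i ≠ 0), v i = 0 := by
      have h1 := hyker x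
      simp only [L, Fintype.linearCombination_apply] at h1
      rw [← h1, Finset.sum_filter]
      apply Finset.sum_congr rfl
      intro i _
      by_cases h : y x i = 0
      · simp [h]
      · rw [if_pos h, hone _ h, one_smul]
    have hw := hcon _ hI hv
    have h2 : ∑ i, w i * (chi (c i) x - 1) = ∑ i ∈ univ.filter (fun i => y x i ≠ 0), w i := by
      rw [Finset.sum_filter]
      apply Finset.sum_congr rfl
      intro i _
      have h3 : chi (c i) x = sg (y x i) := by rw [hyc]; rfl
      rw [h3]
      by_cases h : y x i = 0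
      · rw [h, sg_zero]
        simp
      · rw [if_pos h, hone _ h]
        generalize w i = a
        revert a
        decide
    rw [h2]
    exact hw
  let W : V → ZMod 3 := fun u => if u = 0 then 0 else ∑ i ∈ univ.filter (fun i => c i = u), w i
  have hW0 : W 0 = 0 := by simp [W]
  have hfib : ∀ x : V, ∑ u, W u * (chi u x - 1) = ∑ i, w i * (chi (c i) x - 1) := by
    intro x
    rw [← Finset.sum_fiberwise (s := univ) (g := c) (f := fun i => w i * (chi (c i) x - 1))]
    apply Finset.sum_congr rfl
    intro u _
    by_cases hu : u = 0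
    · subst hu
      rw [hW0, zero_mul]
      symm
      apply Finset.sum_eq_zero
      intro i hi
      rw [(Finset.mem_filter.mp hi).2, chi_zero_left]
      simp
    · simp only [W, if_neg hu]
      rw [Finset.sum_mul]
      apply Finset.sum_congr rfl
      intro i hi
      rw [(Finset.mem_filter.mp hi).2]
  have hk10 := key W hW0 (fun x hx => by rw [hfib x]; exact hne9 x hx)
  have hsub : univ.filter (fun u => W u ≠ 0) ⊆ (univ : Finset (Fin 9)).image c := by
    intro u hu
    have hu' := (Finset.mem_filter.mp hu).2
    rw [Finset.mem_image]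
    by_contra hno
    push Not at hno
    apply hu'
    simp only [W]
    split_ifs with h
    · rfl
    · apply Finset.sum_eq_zero
      intro i hi
      exact absurd (Finset.mem_filter.mp hi).2 (hno i (Finset.mem_univ i))
  have h9 : ((univ : Finset (Fin 9)).image c).card ≤ 9 := by
    refine Finset.card_image_le.trans ?_
    simp
  have := (hk10.trans (Finset.card_le_card hsub)).trans h9
  omega

/-- The Davenport constant of `G`: the least positive integer `t` such that every sequence
(finite multiset) over `G` of length at least `t` has a nonempty zero-sum subsequence. -/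
noncomputable def davenport (G : Type) [AddCommGroup G] : ℕ :=
  sInf {t : ℕ | 0 < t ∧ ∀ S : Multiset G, t ≤ Multiset.card S →
    ∃ T : Multiset G, T ≤ S ∧ T ≠ 0 ∧ T.sum = 0}

def nn : Fin 4 → ℕ := ![2, 2, 2, 6]

abbrev G0 := (j : Fin 4) → ZMod (nn j)

lemma two_dvd_nn : ∀ j, 2 ∣ nn j := by decide

def p2 : G0 →+ (Fin 4 → ZMod 2) where
  toFun g := fun j => ZMod.castHom (two_dvd_nn j) (ZMod 2) (g j)
  map_zero' := by
    funext j
    simp only [Pi.zero_apply, map_zero]
  map_add' a b := by
    funext j
    simp only [Pi.add_apply, map_add]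

def p3 : G0 →+ ZMod 3 where
  toFun g := ZMod.castHom (show 3 ∣ nn 3 by decide) (ZMod 3) (g 3)
  map_zero' := by simp only [Pi.zero_apply, map_zero]
  map_add' a b := by simp only [Pi.add_apply, map_add]

lemma p23_zero (g : G0) (h2 : p2 g = 0) (h3 : p3 g = 0) : g = 0 := by
  have e0 := congrFun h2 0
  have e1 := congrFun h2 1
  have e2 := congrFun h2 2
  have e3 := congrFun h2 3
  have c2 : ∀ a : ZMod 2, ZMod.castHom (show 2 ∣ 2 by decide) (ZMod 2) a = 0 → a = 0 := by decide
  have c6 : ∀ a : ZMod 6, ZMod.castHom (show 2 ∣ 6 by decide) (ZMod 2) a = 0 →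
    ZMod.castHom (show 3 ∣ 6 by decide) (ZMod 3) a = 0 → a = 0 := by decide
  funext j
  fin_cases j
  · exact c2 _ e0
  · exact c2 _ e1
  · exact c2 _ e2
  · exact c6 _ e3 h3

lemma davenport_bound (S : Multiset G0) (hS : 9 ≤ Multiset.card S) :
    ∃ T : Multiset G0, T ≤ S ∧ T ≠ 0 ∧ T.sum = 0 := by
  induction S using Quotient.inductionOn with
  | _ l =>
  simp only [Multiset.quot_mk_to_coe, Multiset.coe_card] at hS
  have hlen : (l.take 9).length = 9 := by
    rw [List.length_take]
    omega
  let g : Fin 9 → G0 := fun i => (l.take 9).get (Fin.cast hlen.symm i)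
  obtain ⟨I, hI, h2, h3⟩ := exists_zero_sum (fun i => p2 (g i)) (fun i => p3 (g i))
  refine ⟨I.val.map g, ?_, ?_, ?_⟩
  · have h4 : (Finset.univ : Finset (Fin 9)).val.map g = ((l.take 9 : List G0) : Multiset G0) := by
      rw [Fin.univ_val_map]
      congr 1
      apply List.ext_getElem
      · rw [List.length_ofFn, hlen]
      · intro n h1 h2
        rw [List.getElem_ofFn]
        rfl
    refine (Multiset.map_le_map (Finset.val_le_iff.mpr (Finset.subset_univ I))).trans ?_
    rw [h4]
    exact (List.take_sublist 9 l).subperm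
  · intro h0
    rw [Multiset.map_eq_zero] at h0
    rw [Finset.val_eq_zero] at h0
    exact hI.ne_empty h0
  · apply p23_zero
    · rw [← h2]
      change p2 (∑ i ∈ I, g i) = _
      rw [map_sum]
    · rw [← h3]
      change p3 (∑ i ∈ I, g i) = _
      rw [map_sum]

lemma davenport_le : davenport G0 ≤ 9 :=
  Nat.sInf_le ⟨by decide, davenport_bound⟩

/-- Natural representatives of the coordinates of the ten terms of the counterexample. -/
def aa : Fin 10 → Fin 4 → ℕ :=
  ![![1, 1, 1, 2], ![1, 0, 0, 5], ![1, 0, 0, 2], ![0, 1, 0, 5], ![0, 1, 0, 2],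
    ![0, 0, 1, 5], ![0, 0, 1, 2], ![0, 0, 0, 4], ![0, 0, 0, 4], ![0, 0, 0, 4]]

def gg (i : Fin 10) : G0 := fun j => (aa i j : ZMod (nn j))

def S0 : Multiset G0 := (((List.finRange 10).map gg : List G0) : Multiset G0)

lemma S0_check : ∀ l ∈ (List.finRange 10).sublists,
    (∀ j, (l.map (fun i => aa i j)).sum % nn j = 0) → l.length % 2 = 0 → l = [] := by
  decide +kernel

lemma S0_odd (T : Multiset G0) (hT : T ≤ S0) (hT0 : T ≠ 0) (hsum : T.sum = 0) :
    Multiset.card T % 2 = 1 := by
  induction T using Quotient.inductionOn with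
  | _ l' =>
  simp only [Multiset.quot_mk_to_coe, Multiset.coe_card] at *
  obtain ⟨l1, hperm, hsub⟩ := hT
  obtain ⟨l, hl, rfl⟩ := List.sublist_map_iff.mp hsub
  have hlen : l'.length = l.length := by
    rw [← hperm.length_eq, List.length_map]
  have hsum' : (l.map gg).sum = 0 := by
    rw [Multiset.sum_coe] at hsum
    rw [← hsum]
    exact hperm.sum_eq
  rw [hlen]
  by_contra hodd
  have hev : l.length % 2 = 0 := by omega
  have hnil := S0_check l (List.mem_sublists.mpr hl) ?_ hev
  · apply hT0
    have : l'.length = 0 := by rw [hlen, hnil]; rfl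
    rw [List.length_eq_zero_iff.mp this]
    rfl
  · intro j
    have h1 : ((l.map (fun i => aa i j)).sum : ZMod (nn j)) = 0 := by
      have h2 := congrFun hsum' j
      rw [Pi.zero_apply] at h2
      rw [← h2]
      clear * -
      induction l with
      | nil => simp
      | cons a l ih =>
        simp only [List.map_cons, List.sum_cons, Nat.cast_add, Pi.add_apply]
        rw [ih]
        rfl
    exact Nat.mod_eq_zero_of_dvd ((ZMod.natCast_eq_zero_iff _ _).mp h1)

/-- The statement of Q1 fails. -/
theorem result :
    ¬ (∀ (G : Type) [AddCommGroup G] [Finite G] (r : ℕ) (n : Fin (r + 1) → ℕ),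
      1 < n 0 → (∀ j k : Fin (r + 1), j ≤ k → n j ∣ n k) →
      Nonempty (G ≃+ ((j : Fin (r + 1)) → ZMod (n j))) →
      ∀ i : ℕ, 1 ≤ i → i ≤ n 0 →
      ∀ S : Multiset G, Multiset.card S = davenport G + i - 1 →
      ∀ A : Finset ℕ, A ⊆ Finset.Icc 1 (n 0 - 1) → A.card = i - 1 →
      ∃ T : Multiset G, T ≤ S ∧ T ≠ 0 ∧ T.sum = 0 ∧
        ∀ b ∈ A, ¬ (Multiset.card T ≡ b [MOD n 0])) := by
  intro H
  have inst1 : ∀ j, NeZero (nn j) := by
    intro j
    refine ⟨?_⟩
    revert j
    decide
  have inst2 : Finite G0 := inferInstance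
  have hle := davenport_le
  have hcard0 : Multiset.card S0 = 10 := by
    simp [S0]
  obtain ⟨S, hS, hcard⟩ : ∃ S : Multiset G0, S ≤ S0 ∧ Multiset.card S = davenport G0 + 1 := by
    have h1 : davenport G0 + 1 ≤ Multiset.card S0 := by omega
    refine ⟨((((List.finRange 10).map gg).take (davenport G0 + 1) : List G0) : Multiset G0), ?_, ?_⟩
    · exact (List.take_sublist _ _).subperm
    · rw [Multiset.coe_card, List.length_take, List.length_map, List.length_finRange]
      omega
  obtain ⟨T, hTS, hT0, hTsum, hT⟩ := H G0 3 nn (by decide) (by decide) ⟨AddEquiv.refl _⟩ 2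
    (by omega) (by decide) S (by omega) {1} (by decide) (by decide)
  exact hT 1 (by simp) (S0_odd T (hTS.trans hS) hT0 hTsum)

end Pool.Agent.Results.MP_9fddba_co.Disproof
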